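import Pool.Agent.W318.KG.C1a

/-! # Project KG, part C1: joint differentiability of a parametric cosine transform -/

set_option autoImplicit false
set_option maxHeartbeats 400000

open MeasureTheory Set Metric Filter Topology Real
open scoped ContDiff

noncomputable section

namespace Pool.Agent.W318.KG

open Pool.Agent.W787.KG

theorem c1 (h2 : S_WI) (h4 : S_WE) : S_C1 := by
  intro a b K θ ha hb hAa hAb hd
  obtain ⟨hpos, -, hmul, hle, hWc⟩ := h4
  have hW2 : Integrable (Wg 2 1 1) := (h2 2 le_rfl).1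
  have hW3 : Integrable (Wg 3 1 1) := (h2 3 (by norm_num)).1
  have hW2p : ∀ ξ, 0 < Wg 2 1 1 ξ := fun ξ => (hpos 2 1 1 ξ one_pos one_pos).1
  have hK : 0 ≤ K := by
    have h := (abs_nonneg _).trans (hAb 0 0)
    by_contra hcon
    push Not at hcon
    have := mul_neg_of_neg_of_pos hcon (hW2p 0)
    linarith
  have hAa2 : ∀ t ξ, ‖ξ‖ * |a t ξ| ≤ K * Wg 2 1 1 ξ := by
    intro t ξ
    have h3 := hmul 3 1 ξ (by norm_num)
    rw [pow_one] at h3
    calc ‖ξ‖ * |a t ξ| ≤ ‖ξ‖ * (K * Wg 3 1 1 ξ) :=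
          mul_le_mul_of_nonneg_left (hAa t ξ) (norm_nonneg _)
      _ = K * (‖ξ‖ * Wg 3 1 1 ξ) := by ring
      _ ≤ K * Wg 2 1 1 ξ := mul_le_mul_of_nonneg_left h3 hK
  have hFb : ∀ z ξ, ‖Fd a b θ z ξ‖ ≤ (2 * K) * Wg 2 1 1 ξ := by
    intro z ξ
    have h3 := Fd_norm a b θ z ξ
    have h5 := hAa2 z.1 ξ
    have h6 := hAb z.1 ξ
    linarith
  have hFc := Fd_cont a b θ ha hb
  have hFm : ∀ z, AEStronglyMeasurable (Fd a b θ z) volume := by
    intro z
    have h := hFc.comp (pair_right z)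
    exact h.aestronglyMeasurable
  have hFl : ∀ ξ, Continuous (fun z => Fd a b θ z ξ) := by
    intro ξ
    have h := hFc.comp (pair_left ξ)
    exact h
  have hFi : ∀ z, Integrable (Fd a b θ z) := fun z =>
    (hW2.const_mul (2 * K)).mono' (hFm z) (Eventually.of_forall fun ξ => hFb z ξ)
  have hIc := int_cont a θ ha
  have hIi := int_int a _ K θ ha hW3 hAa
  have hIi2 := int_int b _ K θ hb hW2 hAb
  have key : ∀ z : ℝ × E, z ∈ Ioi (0 : ℝ) ×ˢ (univ : Set E) →
      HasFDerivAt (fun w : ℝ × E => ∫ ξ, Real.cos (inner ℝ ξ w.2 + θ) * a w.1 ξ)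
        (∫ ξ, Fd a b θ z ξ) z := by
    intro z hz
    refine hasFDerivAt_integral_of_dominated_of_fderiv_le (bound := fun ξ => (2 * K) * Wg 2 1 1 ξ)
      (s := Ioi (0 : ℝ) ×ˢ (univ : Set E)) ((isOpen_Ioi.prod isOpen_univ).mem_nhds hz)
      (Eventually.of_forall fun w => (hIc w).aestronglyMeasurable) (hIi z) (hFm z)
      (Eventually.of_forall fun ξ w _ => hFb w ξ) (hW2.const_mul (2 * K))
      (Eventually.of_forall fun ξ w hw => ?_)
    exact Fd_deriv a b θ w ξ (hd w.1 ξ hw.1)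
  have hDc : Continuous (fun z : ℝ × E => ∫ ξ, Fd a b θ z ξ) :=
    continuous_of_dominated (bound := fun ξ => (2 * K) * Wg 2 1 1 ξ) hFm
      (fun z => Eventually.of_forall fun ξ => hFb z ξ) (hW2.const_mul (2 * K))
      (Eventually.of_forall fun ξ => hFl ξ)
  refine ⟨cont_int a (Wg 3 1 1) K θ ha hW3 hAa, cont_int b (Wg 2 1 1) K θ hb hW2 hAb, ?_, ?_⟩
  · rw [show (1 : WithTop ℕ∞) = 0 + 1 from (zero_add 1).symm,
      contDiffOn_succ_iff_fderiv_of_isOpen (isOpen_Ioi.prod isOpen_univ)]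
    refine ⟨fun z hz => (key z hz).differentiableAt.differentiableWithinAt,
      fun h => absurd h (by simp), ?_⟩
    rw [contDiffOn_zero]
    exact hDc.continuousOn.congr fun z hz => (key z hz).fderiv
  · intro t x ht
    refine ⟨∫ ξ, Fd a b θ (t, x) ξ, key (t, x) ⟨ht, mem_univ _⟩, fun τ v => ?_⟩
    rw [ContinuousLinearMap.integral_apply (hFi (t, x))]
    have e1 : ∀ ξ, Fd a b θ (t, x) ξ (τ, v) = τ * (Real.cos (inner ℝ ξ x + θ) * b t ξ) +
        Real.cos (inner ℝ ξ x + (θ + π / 2)) * (inner ℝ ξ v * a t ξ) :=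
      fun ξ => Fd_apply a b θ (t, x) ξ τ v
    simp only [e1]
    rw [integral_add, integral_const_mul]
    · exact (hIi2 (t, x)).const_mul τ
    · have e2 : (fun ξ => Real.cos (inner ℝ ξ x + (θ + π / 2)) * (inner ℝ ξ v * a t ξ)) =
          fun ξ => Fd a b θ (t, x) ξ (0, v) := by
        funext ξ
        rw [Fd_apply, zero_mul, zero_add]
      rw [e2]
      exact (hFi (t, x)).apply_continuousLinearMap _

end Pool.Agent.W318.KG
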