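import Pool.Agent.W787.KG.Defs

/-! # Project KG, part C1: joint differentiability of a parametric cosine transform -/

set_option autoImplicit false
set_option maxHeartbeats 400000

open MeasureTheory Set Metric Filter Topology Real
open scoped ContDiff

noncomputable section

namespace Pool.Agent.W318.KG

open Pool.Agent.W787.KG

/-- the derivative of the integrand -/
def Fd (a b : ℝ → E → ℝ) (θ : ℝ) (z : ℝ × E) (ξ : E) : ℝ × E →L[ℝ] ℝ :=
  Real.cos (inner ℝ ξ z.2 + θ) • (b z.1 ξ • ContinuousLinearMap.fst ℝ ℝ E) +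
    a z.1 ξ • (-Real.sin (inner ℝ ξ z.2 + θ) •
      ((innerSL ℝ ξ).comp (ContinuousLinearMap.snd ℝ ℝ E)))

theorem Fd_apply (a b : ℝ → E → ℝ) (θ : ℝ) (z : ℝ × E) (ξ : E) (τ : ℝ) (v : E) :
    Fd a b θ z ξ (τ, v) = τ * (Real.cos (inner ℝ ξ z.2 + θ) * b z.1 ξ) +
      Real.cos (inner ℝ ξ z.2 + (θ + π / 2)) * (inner ℝ ξ v * a z.1 ξ) := by
  rw [← add_assoc, Real.cos_add_pi_div_two]
  simp only [Fd, _root_.add_apply, _root_.smul_apply,
    ContinuousLinearMap.comp_apply, ContinuousLinearMap.coe_fst', ContinuousLinearMap.coe_snd',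
    innerSL_apply_apply, smul_eq_mul]
  ring

theorem inner_cont : Continuous (fun p : (ℝ × E) × E => (inner ℝ p.2 p.1.2 : ℝ)) :=
  continuous_snd.inner (continuous_snd.comp continuous_fst)

theorem cont_int (a : ℝ → E → ℝ) (W : E → ℝ) (K θ : ℝ)
    (ha : Continuous (fun z : ℝ × E => a z.1 z.2)) (hW : Integrable W)
    (hb : ∀ t ξ, |a t ξ| ≤ K * W ξ) :
    Continuous (fun z : ℝ × E => ∫ ξ, Real.cos (inner ℝ ξ z.2 + θ) * a z.1 ξ) := by
  have hj : Continuous (fun p : (ℝ × E) × E => Real.cos (inner ℝ p.2 p.1.2 + θ) * a p.1.1 p.2) :=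
    (Real.continuous_cos.comp (inner_cont.add continuous_const)).mul
      (ha.comp ((continuous_fst.comp continuous_fst).prodMk continuous_snd))
  refine continuous_of_dominated (bound := fun ξ => K * W ξ) (fun z => ?_) (fun z => ?_)
    (hW.const_mul K) ?_
  · have h1 : Continuous (fun ξ : E => ((z, ξ) : (ℝ × E) × E)) := by fun_prop
    have h2 := hj.comp h1
    exact h2.aestronglyMeasurable
  · refine Eventually.of_forall fun ξ => ?_
    rw [Real.norm_eq_abs, abs_mul]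
    calc |Real.cos (inner ℝ ξ z.2 + θ)| * |a z.1 ξ| ≤ 1 * |a z.1 ξ| :=
          mul_le_mul_of_nonneg_right (Real.abs_cos_le_one _) (abs_nonneg _)
      _ = |a z.1 ξ| := one_mul _
      _ ≤ K * W ξ := hb _ _
  · refine Eventually.of_forall fun ξ => ?_
    have h1 : Continuous (fun z : ℝ × E => ((z, ξ) : (ℝ × E) × E)) := by fun_prop
    have h2 := hj.comp h1
    exact h2

theorem Fd_cont (a b : ℝ → E → ℝ) (θ : ℝ) (ha : Continuous (fun z : ℝ × E => a z.1 z.2))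
    (hb : Continuous (fun z : ℝ × E => b z.1 z.2)) :
    Continuous (fun p : (ℝ × E) × E => Fd a b θ p.1 p.2) := by
  have h1 : Continuous (fun p : (ℝ × E) × E => Real.cos (inner ℝ p.2 p.1.2 + θ)) :=
    Real.continuous_cos.comp (inner_cont.add continuous_const)
  have h2 : Continuous (fun p : (ℝ × E) × E => -Real.sin (inner ℝ p.2 p.1.2 + θ)) :=
    (Real.continuous_sin.comp (inner_cont.add continuous_const)).neg
  have h3 : Continuous (fun p : (ℝ × E) × E => a p.1.1 p.2) :=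
    ha.comp ((continuous_fst.comp continuous_fst).prodMk continuous_snd)
  have h4 : Continuous (fun p : (ℝ × E) × E => b p.1.1 p.2) :=
    hb.comp ((continuous_fst.comp continuous_fst).prodMk continuous_snd)
  have h5 : Continuous (fun p : (ℝ × E) × E =>
      (innerSL ℝ p.2).comp (ContinuousLinearMap.snd ℝ ℝ E)) :=
    ((innerSL ℝ).continuous.comp continuous_snd).clm_comp continuous_const
  exact (h1.smul (h4.smul continuous_const)).add (h3.smul (h2.smul h5))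

theorem Fd_norm (a b : ℝ → E → ℝ) (θ : ℝ) (z : ℝ × E) (ξ : E) :
    ‖Fd a b θ z ξ‖ ≤ |b z.1 ξ| + ‖ξ‖ * |a z.1 ξ| := by
  refine ContinuousLinearMap.opNorm_le_bound _ (by positivity) ?_
  rintro ⟨τ, v⟩
  rw [Fd_apply, Real.norm_eq_abs]
  have hτ : |τ| ≤ ‖(τ, v)‖ := norm_fst_le (τ, v)
  have hv : ‖v‖ ≤ ‖(τ, v)‖ := norm_snd_le (τ, v)
  have h1 : |τ * (Real.cos (inner ℝ ξ z.2 + θ) * b z.1 ξ)| ≤ |b z.1 ξ| * ‖(τ, v)‖ := by
    rw [abs_mul, abs_mul]
    calc |τ| * (|Real.cos (inner ℝ ξ z.2 + θ)| * |b z.1 ξ|) ≤ ‖(τ, v)‖ * (1 * |b z.1 ξ|) := by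
          gcongr
          exact Real.abs_cos_le_one _
      _ = |b z.1 ξ| * ‖(τ, v)‖ := by ring
  have h2 : |Real.cos (inner ℝ ξ z.2 + (θ + π / 2)) * (inner ℝ ξ v * a z.1 ξ)| ≤
      ‖ξ‖ * |a z.1 ξ| * ‖(τ, v)‖ := by
    rw [abs_mul, abs_mul]
    calc |Real.cos (inner ℝ ξ z.2 + (θ + π / 2))| * (|inner ℝ ξ v| * |a z.1 ξ|)
        ≤ 1 * ((‖ξ‖ * ‖(τ, v)‖) * |a z.1 ξ|) := by
          gcongr
          · exact Real.abs_cos_le_one _
          · exact (abs_real_inner_le_norm ξ v).trans (by gcongr)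
      _ = ‖ξ‖ * |a z.1 ξ| * ‖(τ, v)‖ := by ring
  calc |τ * (Real.cos (inner ℝ ξ z.2 + θ) * b z.1 ξ) +
        Real.cos (inner ℝ ξ z.2 + (θ + π / 2)) * (inner ℝ ξ v * a z.1 ξ)| ≤ _ := abs_add_le _ _
    _ ≤ |b z.1 ξ| * ‖(τ, v)‖ + ‖ξ‖ * |a z.1 ξ| * ‖(τ, v)‖ := add_le_add h1 h2
    _ = (|b z.1 ξ| + ‖ξ‖ * |a z.1 ξ|) * ‖(τ, v)‖ := by ring

theorem Fd_deriv (a b : ℝ → E → ℝ) (θ : ℝ) (z : ℝ × E) (ξ : E)
    (h : HasDerivAt (fun s => a s ξ) (b z.1 ξ) z.1) :
    HasFDerivAt (fun w : ℝ × E => Real.cos (inner ℝ ξ w.2 + θ) * a w.1 ξ) (Fd a b θ z ξ) z := by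
  have h1 : HasFDerivAt (fun w : ℝ × E => a w.1 ξ) (b z.1 ξ • ContinuousLinearMap.fst ℝ ℝ E) z :=
    HasDerivAt.comp_hasFDerivAt z h hasFDerivAt_fst
  have h2 : HasFDerivAt (fun w : ℝ × E => (inner ℝ ξ w.2 + θ : ℝ))
      ((innerSL ℝ ξ).comp (ContinuousLinearMap.snd ℝ ℝ E)) z :=
    (((innerSL ℝ ξ).hasFDerivAt (x := z.2)).comp z hasFDerivAt_snd).add_const θ
  exact h2.cos.mul h1


theorem pair_left (ξ : E) : Continuous (fun z : ℝ × E => ((z, ξ) : (ℝ × E) × E)) := by fun_prop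

theorem pair_right (z : ℝ × E) : Continuous (fun ξ : E => ((z, ξ) : (ℝ × E) × E)) := by fun_prop

theorem int_cont (a : ℝ → E → ℝ) (θ : ℝ) (ha : Continuous (fun z : ℝ × E => a z.1 z.2))
    (z : ℝ × E) : Continuous (fun ξ => Real.cos (inner ℝ ξ z.2 + θ) * a z.1 ξ) := by
  have hj : Continuous (fun p : (ℝ × E) × E => Real.cos (inner ℝ p.2 p.1.2 + θ) * a p.1.1 p.2) :=
    (Real.continuous_cos.comp (inner_cont.add continuous_const)).mul
      (ha.comp ((continuous_fst.comp continuous_fst).prodMk continuous_snd))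
  have h2 := hj.comp (pair_right z)
  exact h2

theorem int_int (a : ℝ → E → ℝ) (W : E → ℝ) (K θ : ℝ)
    (ha : Continuous (fun z : ℝ × E => a z.1 z.2)) (hW : Integrable W)
    (hb : ∀ t ξ, |a t ξ| ≤ K * W ξ) (z : ℝ × E) :
    Integrable (fun ξ => Real.cos (inner ℝ ξ z.2 + θ) * a z.1 ξ) := by
  refine (hW.const_mul K).mono' (int_cont a θ ha z).aestronglyMeasurable
    (Eventually.of_forall fun ξ => ?_)
  rw [Real.norm_eq_abs, abs_mul]
  calc |Real.cos (inner ℝ ξ z.2 + θ)| * |a z.1 ξ| ≤ 1 * |a z.1 ξ| :=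
        mul_le_mul_of_nonneg_right (Real.abs_cos_le_one _) (abs_nonneg _)
    _ = |a z.1 ξ| := one_mul _
    _ ≤ K * W ξ := hb _ _

end Pool.Agent.W318.KG
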